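import Pool.Agent.Run7.h776.MM.Single

/-!
# Furstenberg's conjecture and the mass of one interval

`I t` is the arc `[0, t)` of the circle `ℝ/ℤ`, and `Inv Γ μ` says that `μ` is an atomless
probability measure on the circle which is invariant under `x ↦ n x` for every `n ∈ Γ`.
-/

set_option autoImplicit false

namespace Pool.Agent.Results.MP_e27144_an.OneThird

open MeasureTheory

/-- The arc `[0, t)` of `ℝ/ℤ`. -/
def I (t : ℝ) : Set (AddCircle (1 : ℝ)) := (fun y : ℝ => (y : AddCircle (1 : ℝ))) '' Set.Ico 0 t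

/-- `μ` is an atomless Borel probability measure on `ℝ/ℤ`, invariant under `x ↦ n x` for all
`n ∈ Γ`. -/
def Inv (Γ : Set ℕ) (μ : Measure (AddCircle (1 : ℝ))) : Prop :=
  IsProbabilityMeasure μ ∧ (∀ x, μ {x} = 0) ∧
    ∀ n ∈ Γ, MeasurePreserving (fun x : AddCircle (1 : ℝ) => n • x) μ μ

theorem result :
    -- a single atomless probability measure
    (∀ ε : ℝ, 0 < ε → ∃ C : ℝ, 0 < C ∧
      ∀ μ : Measure (AddCircle (1 : ℝ)), IsProbabilityMeasure μ → (∀ x, μ {x} = 0) →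
        ∀ δ : ℝ, 0 < δ → δ ≤ 1 → ∀ n : ℤ, n ≠ 0 →
          (∀ j : ℤ, j ≠ 0 → |μ.real {x | (j * n) • x ∈ I (1 / 3)} - 1 / 3| ≤ δ) →
          ‖∫ x, (fourier n x : ℂ) ∂μ‖ ≤ C * δ ^ (1 - ε)) ∧
    (∀ μ : Measure (AddCircle (1 : ℝ)), IsProbabilityMeasure μ → (∀ x, μ {x} = 0) →
      (μ = volume ↔ ∀ m : ℤ, m ≠ 0 → μ.real {x | m • x ∈ I (1 / 3)} = 1 / 3)) ∧
    -- classes of invariant measures, quantitatively
    (∀ ε : ℝ, 0 < ε → ∃ C : ℝ, 0 < C ∧ ∀ (Γ : Set ℕ) (δ : ℝ), 0 < δ → δ ≤ 1 →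
      ((∀ μ, Inv Γ μ → |μ.real (I (1 / 3)) - 1 / 3| ≤ δ) ∨
        (2 ∈ Γ ∧ ∀ μ, Inv Γ μ → |μ.real (I (1 / 4)) - 1 / 4| ≤ δ)) →
      ∀ μ, Inv Γ μ → ∀ n : ℤ, n ≠ 0 → ‖∫ x, (fourier n x : ℂ) ∂μ‖ ≤ C * δ ^ (1 - ε)) ∧
    -- classes of invariant measures
    (∀ Γ : Set ℕ,
      ((∀ μ, Inv Γ μ → μ = volume) ↔ ∀ μ, Inv Γ μ → μ.real (I (1 / 3)) = 1 / 3) ∧
      (2 ∈ Γ → ((∀ μ, Inv Γ μ → μ = volume) ↔ ∀ μ, Inv Γ μ → μ.real (I (1 / 4)) = 1 / 4))) ∧
    -- Q1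
    ((∀ μ : Measure (AddCircle (1 : ℝ)),
        IsProbabilityMeasure μ → NullSingletonClass μ →
        MeasurePreserving (fun x : AddCircle (1 : ℝ) => (2 : ℕ) • x) μ μ →
        MeasurePreserving (fun x : AddCircle (1 : ℝ) => (3 : ℕ) • x) μ μ → μ = volume) ↔
      ∀ μ : Measure (AddCircle (1 : ℝ)),
        IsProbabilityMeasure μ → NullSingletonClass μ →
        MeasurePreserving (fun x : AddCircle (1 : ℝ) => (2 : ℕ) • x) μ μ →
        MeasurePreserving (fun x : AddCircle (1 : ℝ) => (3 : ℕ) • x) μ μ →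
        μ (I (1 / 3)) = 1 / 3) ∧
    ((∀ μ : Measure (AddCircle (1 : ℝ)),
        IsProbabilityMeasure μ → NullSingletonClass μ →
        MeasurePreserving (fun x : AddCircle (1 : ℝ) => (2 : ℕ) • x) μ μ →
        MeasurePreserving (fun x : AddCircle (1 : ℝ) => (3 : ℕ) • x) μ μ → μ = volume) ↔
      ∀ μ : Measure (AddCircle (1 : ℝ)),
        IsProbabilityMeasure μ → NullSingletonClass μ →
        MeasurePreserving (fun x : AddCircle (1 : ℝ) => (2 : ℕ) • x) μ μ →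
        MeasurePreserving (fun x : AddCircle (1 : ℝ) => (3 : ℕ) • x) μ μ →
        μ (I (1 / 4)) = 1 / 4) := by
  have hI : ∀ t : ℝ, I t = Pool.Agent.Run7.h776.MM.arc 0 t := fun t => rfl
  have hInv : ∀ (Γ : Set ℕ) (μ : Measure (AddCircle (1 : ℝ))),
      Inv Γ μ ↔ Pool.Agent.Run7.h776.MM.Inv Γ μ := fun Γ μ => Iff.rfl
  -- quantitative statement for classes
  have hQ : ∀ ε : ℝ, 0 < ε → ∃ C : ℝ, 0 < C ∧ ∀ (Γ : Set ℕ) (δ : ℝ), 0 < δ → δ ≤ 1 →
      ((∀ μ, Inv Γ μ → |μ.real (I (1 / 3)) - 1 / 3| ≤ δ) ∨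
        (2 ∈ Γ ∧ ∀ μ, Inv Γ μ → |μ.real (I (1 / 4)) - 1 / 4| ≤ δ)) →
      ∀ μ, Inv Γ μ → ∀ n : ℤ, n ≠ 0 → ‖∫ x, (fourier n x : ℂ) ∂μ‖ ≤ C * δ ^ (1 - ε) := by
    intro ε hε
    obtain ⟨C, hC, h3⟩ := Pool.Agent.Run7.h776.MM.third_bound ε hε
    obtain ⟨D, hD, h4⟩ := Pool.Agent.Run7.h776.MM.quarter_bound ε hε
    refine ⟨C + D, by positivity, fun Γ δ h0 h1 hor μ hμ n hn => ?_⟩
    have hp : 0 ≤ δ ^ (1 - ε) := Real.rpow_nonneg h0.le _
    rcases hor with h | ⟨h2, h⟩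
    · exact (h3 Γ δ h0 h1 h μ hμ n hn).trans
        (mul_le_mul_of_nonneg_right (by linarith) hp)
    · exact (h4 Γ δ h2 h0 h1 h μ hμ n hn).trans
        (mul_le_mul_of_nonneg_right (by linarith) hp)
  have hvol3 : (volume : Measure (AddCircle (1 : ℝ))).real (I (1 / 3)) = 1 / 3 :=
    Pool.Agent.Run7.h776.MM.volume_arc (by norm_num) (by norm_num)
  have hvol4 : (volume : Measure (AddCircle (1 : ℝ))).real (I (1 / 4)) = 1 / 4 :=
    Pool.Agent.Run7.h776.MM.volume_arc (by norm_num) (by norm_num)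
  obtain ⟨C, hC, hCall⟩ := hQ (1 / 2) (by norm_num)
  have hcl : ∀ Γ : Set ℕ,
      ((∀ μ, Inv Γ μ → μ = volume) ↔ ∀ μ, Inv Γ μ → μ.real (I (1 / 3)) = 1 / 3) ∧
      (2 ∈ Γ → ((∀ μ, Inv Γ μ → μ = volume) ↔ ∀ μ, Inv Γ μ → μ.real (I (1 / 4)) = 1 / 4)) := by
    intro Γ
    refine ⟨⟨fun h μ hμ => by rw [h μ hμ, hvol3], fun h μ hμ => ?_⟩,
      fun h2 => ⟨fun h μ hμ => by rw [h μ hμ, hvol4], fun h μ hμ => ?_⟩⟩
    · refine Pool.Agent.Run7.h776.MM.eq_volume_of_small hμ.1 (C := C) fun δ h0 h1 n hn => ?_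
      refine hCall Γ δ h0 h1 (Or.inl fun ν hν => ?_) μ hμ n hn
      rw [h ν hν, sub_self, abs_zero]
      exact h0.le
    · refine Pool.Agent.Run7.h776.MM.eq_volume_of_small hμ.1 (C := C) fun δ h0 h1 n hn => ?_
      refine hCall Γ δ h0 h1 (Or.inr ⟨h2, fun ν hν => ?_⟩) μ hμ n hn
      rw [h ν hν, sub_self, abs_zero]
      exact h0.le
  have hEq : ∀ μ : Measure (AddCircle (1 : ℝ)), Inv {2, 3} μ ↔
      (IsProbabilityMeasure μ ∧ NullSingletonClass μ ∧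
        MeasurePreserving (fun x : AddCircle (1 : ℝ) => (2 : ℕ) • x) μ μ ∧
        MeasurePreserving (fun x : AddCircle (1 : ℝ) => (3 : ℕ) • x) μ μ) := by
    intro μ
    constructor
    · rintro ⟨h1, h2, h3⟩
      exact ⟨h1, ⟨h2⟩, h3 2 (by simp), h3 3 (by simp)⟩
    · rintro ⟨h1, h2, h3, h4⟩
      refine ⟨h1, fun x => measure_singleton x, fun n hn => ?_⟩
      rcases hn with rfl | hn
      · exact h3
      · rw [Set.mem_singleton_iff] at hn
        subst hn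
        exact h4
  have hreal : ∀ (μ : Measure (AddCircle (1 : ℝ))) (s : Set (AddCircle (1 : ℝ))) (k : ℕ),
      IsProbabilityMeasure μ → 0 < k → (μ.real s = 1 / (k : ℝ) ↔ μ s = 1 / (k : ENNReal)) := by
    intro μ s k hμ hk
    have e : ENNReal.ofReal (1 / (k : ℝ)) = 1 / (k : ENNReal) := by
      rw [ENNReal.ofReal_div_of_pos (by exact_mod_cast hk), ENNReal.ofReal_one,
        ENNReal.ofReal_natCast]
    rw [← e, measureReal_def]
    constructor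
    · intro h
      rw [← h, ENNReal.ofReal_toReal (measure_ne_top μ s)]
    · intro h
      rw [h, ENNReal.toReal_ofReal (by positivity)]
  have hQ1 : (∀ μ : Measure (AddCircle (1 : ℝ)),
        IsProbabilityMeasure μ → NullSingletonClass μ →
        MeasurePreserving (fun x : AddCircle (1 : ℝ) => (2 : ℕ) • x) μ μ →
        MeasurePreserving (fun x : AddCircle (1 : ℝ) => (3 : ℕ) • x) μ μ → μ = volume) ↔
      ∀ μ, Inv {2, 3} μ → μ = volume := by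
    constructor
    · intro h μ hμ
      obtain ⟨h1, h2, h3, h4⟩ := (hEq μ).1 hμ
      exact h μ h1 h2 h3 h4
    · intro h μ h1 h2 h3 h4
      exact h μ ((hEq μ).2 ⟨h1, h2, h3, h4⟩)
  refine ⟨Pool.Agent.Run7.h776.MM.single_bound, fun μ h1 h2 => ⟨fun h m hm => ?_, fun h => ?_⟩, hQ,
    hcl, ?_, ?_⟩
  · rw [h]
    have h3 := (Measure.measurePreserving_zsmul (volume : Measure (AddCircle (1 : ℝ))) hm).measure_preimage
      (Pool.Agent.Run7.h776.MM.measurableSet_arc (s := 0) (t := 1 / 3) le_rfl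
        (by norm_num)).nullMeasurableSet
    have h4 : (volume : Measure (AddCircle (1 : ℝ))) {x | m • x ∈ I (1 / 3)} =
        volume (I (1 / 3)) := h3
    rw [measureReal_def, h4, ← measureReal_def, hvol3]
  · obtain ⟨D, hD, hDall⟩ := Pool.Agent.Run7.h776.MM.single_bound (1 / 2) (by norm_num)
    refine Pool.Agent.Run7.h776.MM.eq_volume_of_small h1 (C := D) fun δ h0 h1' n hn => ?_
    refine hDall μ h1 h2 δ h0 h1' n hn fun j hj => ?_
    have h3 := h (j * n) (mul_ne_zero hj hn)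
    rw [hI] at h3
    rw [h3, sub_self, abs_zero]
    exact h0.le
  · rw [hQ1, (hcl {2, 3}).1]
    constructor
    · intro h μ h1 h2 h3 h4
      have h5 := h μ ((hEq μ).2 ⟨h1, h2, h3, h4⟩)
      have h6 := (hreal μ (I (1 / 3)) 3 h1 (by norm_num)).1 (by rw [h5]; norm_num)
      rw [h6]
      norm_num
    · intro h μ hμ
      obtain ⟨h1, h2, h3, h4⟩ := (hEq μ).1 hμ
      have h5 := h μ h1 h2 h3 h4
      have h6 := (hreal μ (I (1 / 3)) 3 h1 (by norm_num)).2 (by rw [h5]; norm_num)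
      rw [h6]
      norm_num
  · rw [hQ1, (hcl {2, 3}).2 (by simp)]
    constructor
    · intro h μ h1 h2 h3 h4
      have h5 := h μ ((hEq μ).2 ⟨h1, h2, h3, h4⟩)
      have h6 := (hreal μ (I (1 / 4)) 4 h1 (by norm_num)).1 (by rw [h5]; norm_num)
      rw [h6]
      norm_num
    · intro h μ hμ
      obtain ⟨h1, h2, h3, h4⟩ := (hEq μ).1 hμ
      have h5 := h μ h1 h2 h3 h4
      have h6 := (hreal μ (I (1 / 4)) 4 h1 (by norm_num)).2 (by rw [h5]; norm_num)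
      rw [h6]
      norm_num

end Pool.Agent.Results.MP_e27144_an.OneThird
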